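import Pool.Agent.W772.Tri5
import Pool.Agent.W46.HM.Stm2

/-!
# MP_ac5134: the Kakeya inequality in tube form, arbitrary translates (project AC)
-/

set_option autoImplicit false

open MeasureTheory Set Filter Topology ENNReal NNReal Metric

namespace Pool.Agent.W46.AC

open Pool.Agent.H810R3.Tub Pool.Agent.W772

/-- The integral bound at the exponent `1 + 1.6752 / d`. -/
def S_INT : Prop := ∀ d : ℕ, 25 ≤ d → ∀ σ : ℝ, 0 < σ → σ ≤ 1 → ∃ E : ℝ, 0 < E ∧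
    ∀ (N : ℝ), 1 ≤ N → ∀ (ι : Type) [Fintype ι] (ω : ι → Vec d) (f : ι → Fin d → Space d)
      (a : ι → Space d), (∀ i, ‖ω i‖ ≤ 1) → (∀ i j, i ≠ j → σ / N ≤ ‖ω i - ω j‖) →
      (∀ i, Orthonormal ℝ (Fin.cons (nor (ω i)) (f i) : Fin (d + 1) → Space d)) →
      ∫⁻ y, Fb N ω f a y ^ (1 + (16752 / 10000) / (d : ℝ)) ≤
        ENNReal.ofReal (E * (Fintype.card ι : ℝ) ^ (1 + (6752 / 10000) / (d : ℝ)) * N ^ (d + 2))

/-- The exponent of `N` lost at the exponent `p`: `max 0 (min (d (1 - 1/c) u) (1 - u (d + c)/c))`,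
`u = 1 - 1/p`, `c = 1.6752`. -/
noncomputable def gam (d : ℕ) (p : ℝ≥0∞) : ℝ :=
  max 0 (min ((d : ℝ) * (1 - 1 / (16752 / 10000)) * (1 - 1 / p.toReal))
    (1 - (1 - 1 / p.toReal) * ((d : ℝ) + 16752 / 10000) / (16752 / 10000)))

/-- Comparison of the norms, for all exponents, given the bound at the exponent `1 + c / d`. -/
def S_CMP : Prop := ∀ d : ℕ, 25 ≤ d → ∀ κ E : ℝ, 0 < κ → 0 < E → ∃ D : ℝ, 1 ≤ D ∧
    ∀ {ι : Type} [Fintype ι] [Nonempty ι] {N : ℝ} (_ : 1 ≤ N)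
      (ω : ι → Vec d) (f : ι → Fin d → Space d)
      (_ : ∀ i, Orthonormal ℝ (Fin.cons (nor (ω i)) (f i) : Fin (d + 1) → Space d)) (a : ι → Space d)
      (_ : κ * N ^ d ≤ (Fintype.card ι : ℝ))
      (_ : ∫⁻ y, Fb N ω f a y ^ (1 + (16752 / 10000) / (d : ℝ)) ≤
        ENNReal.ofReal (E * (Fintype.card ι : ℝ) ^ (1 + (6752 / 10000) / (d : ℝ)) * N ^ (d + 2)))
      (p : ℝ≥0∞) (_ : 1 ≤ p),
      eLpNorm (fun y : Space d => ∑ i, (box N (nor (ω i)) (f i) (a i)).indicator (fun _ => (1 : ℝ)) y) p volume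
        ≤ ENNReal.ofReal (D * N ^ gam d p) *
          eLpNorm (fun y : Space d => ∑ i,
            (box N (nor (ω i)) (f i) 0).indicator (fun _ => (1 : ℝ)) y) p volume

end Pool.Agent.W46.AC
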